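import Pool.Agent.Results.MP_71689c_al.NotIndexed
import Pool.Agent.Results.MP_429423_al.SolvableSubgroups

set_option autoImplicit false

/-!
# MP_71689c_al : groups containing copies of their squares do not have an indexed word problem

Let `K` be a nontrivial group and `φ : K × K → K` an injective homomorphism. If a group `H` contains
`K` and if `φ` increases the lengths at most polynomially, with an exponent smaller than two, then the
word problem of `H` is not an indexed language. This applies if `K` is finitely generated, and to all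
groups which contain the Grigorchuk group.

Proof. The images of the `2 ^ j` factors of `K ^ (2 ^ j)` contain commuting copies of an element `t ≠ 1`,
so that there are abelian subgroups with `2 ^ (2 ^ j)` elements of length at most `2 ^ (D ρ ^ j)`,
`ρ < 2`. By a starting theorem of this pool (`SolvableSubgroups`) abelian subgroups of a group with an
indexed word problem have uniformly polynomial relative growth.
-/

namespace Pool.Agent.Results.MP_71689c_al.SquareEmbeddings

open Pool.Agent.H50R2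
open Pool.Agent.Results.MP_429423_al.SolvableSubgroups (value ball wordProblem winv)
open Pool.Agent.Results.MP_71689c_al.NotIndexed (Gen Grigorchuk)

/-- `h` is a product of at most `n` of the elements `x i` and their inverses (`n` a real number). -/
def LengthLE {H : Type} [Group H] {ι : Type} (x : ι → H) (h : H) (n : ℝ) : Prop :=
  ∃ w : List (ι × Bool), (w.length : ℝ) ≤ n ∧ value x w = h

section general

variable {H : Type} [Group H] {ι : Type} {K : Type} [Group K]

open Classical in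
/-- The products of the copies of `t`. -/
noncomputable def E (φ : K × K →* K) (t : K) : ℕ → Finset K
  | 0 => {1, t}
  | j + 1 => (E φ t j ×ˢ E φ t j).image φ

/-- The commutative subgroups which contain them. -/
def A (φ : K × K →* K) (t : K) : ℕ → Subgroup K
  | 0 => Subgroup.zpowers t
  | j + 1 => ((A φ t j).prod (A φ t j)).map φ

lemma E_sub (φ : K × K →* K) (t : K) (j : ℕ) : ∀ a ∈ E φ t j, a ∈ A φ t j := by
  classical
  induction j with
  | zero =>
    intro a ha
    rw [E, Finset.mem_insert, Finset.mem_singleton] at ha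
    rcases ha with rfl | rfl
    · exact one_mem _
    · exact Subgroup.mem_zpowers _
  | succ j ih =>
    intro a ha
    rw [E, Finset.mem_image] at ha
    obtain ⟨p, hp, rfl⟩ := ha
    rw [Finset.mem_product] at hp
    exact Subgroup.mem_map.2 ⟨p, Subgroup.mem_prod.2 ⟨ih _ hp.1, ih _ hp.2⟩, rfl⟩

lemma A_comm (φ : K × K →* K) (t : K) (j : ℕ) : ∀ a ∈ A φ t j, ∀ b ∈ A φ t j, a * b = b * a := by
  induction j with
  | zero =>
    rintro a ⟨m, rfl⟩ b ⟨n, rfl⟩
    exact (Commute.refl t).zpow_zpow m n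
  | succ j ih =>
    intro a ha b hb
    obtain ⟨p, hp, rfl⟩ := Subgroup.mem_map.1 ha
    obtain ⟨q, hq, rfl⟩ := Subgroup.mem_map.1 hb
    rw [Subgroup.mem_prod] at hp hq
    rw [← map_mul, ← map_mul]
    congr 1
    exact Prod.ext (ih _ hp.1 _ hq.1) (ih _ hp.2 _ hq.2)

lemma E_sep (φ : K × K →* K) (t : K) (N : Subgroup K) (ht : t ∉ N)
    (hN : ∀ a b : K, φ (a, b) ∈ N → a ∈ N ∧ b ∈ N) (j : ℕ) :
    ∀ a ∈ E φ t j, ∀ b ∈ E φ t j, a⁻¹ * b ∈ N → a = b := by
  classical
  induction j with
  | zero =>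
    intro a ha b hb hab
    rw [E, Finset.mem_insert, Finset.mem_singleton] at ha hb
    rcases ha with rfl | rfl <;> rcases hb with rfl | rfl
    · rfl
    · rw [inv_one, one_mul] at hab
      exact absurd hab ht
    · rw [mul_one] at hab
      exact absurd (by simpa using N.inv_mem hab) ht
    · rfl
  | succ j ih =>
    intro a ha b hb hab
    rw [E, Finset.mem_image] at ha hb
    obtain ⟨p, hp, rfl⟩ := ha
    obtain ⟨q, hq, rfl⟩ := hb
    rw [Finset.mem_product] at hp hq
    rw [← map_inv, ← map_mul] at hab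
    obtain ⟨h1, h2⟩ := hN (p.1⁻¹ * q.1) (p.2⁻¹ * q.2) hab
    have e1 := ih _ hp.1 _ hq.1 h1
    have e2 := ih _ hp.2 _ hq.2 h2
    rw [Prod.ext e1 e2]

lemma E_card (φ : K × K →* K) (t : K) (N : Subgroup K) (ht : t ∉ N)
    (hN : ∀ a b : K, φ (a, b) ∈ N → a ∈ N ∧ b ∈ N) (j : ℕ) : (E φ t j).card = 2 ^ 2 ^ j := by
  classical
  induction j with
  | zero =>
    have : (1 : K) ≠ t := by
      rintro rfl
      exact ht N.one_mem
    rw [E, Finset.card_pair this]
    rfl
  | succ j ih =>
    rw [E, Finset.card_image_of_injOn, Finset.card_product, ih, ← pow_add, pow_succ 2 j]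
    · congr 1; ring
    · intro p hp q hq hpq
      rw [Finset.mem_coe, Finset.mem_product] at hp hq
      have h : φ (p.1⁻¹ * q.1, p.2⁻¹ * q.2) ∈ N := by
        have e : ((p.1⁻¹ * q.1, p.2⁻¹ * q.2) : K × K) = p⁻¹ * q := rfl
        rw [e, map_mul, map_inv, hpq, inv_mul_cancel]
        exact N.one_mem
      obtain ⟨h1, h2⟩ := hN _ _ h
      exact Prod.ext (E_sep φ t N ht hN j _ hp.1 _ hq.1 h1) (E_sep φ t N ht hN j _ hp.2 _ hq.2 h2)

/-- The bounds of the lengths. -/
noncomputable def bd (C θ n₀ : ℝ) : ℕ → ℝ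
  | 0 => n₀
  | j + 1 => C * (bd C θ n₀ j + 1) ^ θ

lemma E_len (φ : K × K →* K) (t : K) (ℓ : K → ℝ) (C θ n₀ : ℝ) (hθ : 0 ≤ θ) (hC : 0 ≤ C)
    (h0 : ℓ 1 ≤ n₀) (h1 : ℓ t ≤ n₀) (hpos : ∀ a, 0 ≤ ℓ a)
    (hℓ : ∀ a b : K, ℓ (φ (a, b)) ≤ C * (max (ℓ a) (ℓ b) + 1) ^ θ) (j : ℕ) :
    ∀ a ∈ E φ t j, ℓ a ≤ bd C θ n₀ j := by
  classical
  induction j with
  | zero =>
    intro a ha
    rw [E, Finset.mem_insert, Finset.mem_singleton] at ha
    rcases ha with rfl | rfl
    · exact h0
    · exact h1
  | succ j ih =>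
    intro a ha
    rw [E, Finset.mem_image] at ha
    obtain ⟨p, hp, rfl⟩ := ha
    rw [Finset.mem_product] at hp
    refine (hℓ p.1 p.2).trans ?_
    rw [bd]
    have h2 : max (ℓ p.1) (ℓ p.2) ≤ bd C θ n₀ j := max_le (ih _ hp.1) (ih _ hp.2)
    have h3 : 0 ≤ max (ℓ p.1) (ℓ p.2) := le_max_of_le_left (hpos _)
    exact mul_le_mul_of_nonneg_left (Real.rpow_le_rpow (by linarith) (by linarith) hθ) hC

/-- The logarithms of the lengths grow like `ρ ^ j`, `ρ < 2`. -/
lemma log_bd (C θ n₀ : ℝ) (hθ : 1 ≤ θ) (hθ2 : θ < 2) (hC : 0 ≤ C) (hn : 0 ≤ n₀) :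
    ∃ D ρ : ℝ, 1 ≤ ρ ∧ ρ < 2 ∧ 0 ≤ D ∧
      ∀ j, 0 ≤ bd C θ n₀ j ∧ Real.logb 2 (bd C θ n₀ j + 3) ≤ D * ρ ^ j := by
  set c := Real.logb 2 (C + 3) with hc
  set ρ := (θ + 2) / 2 with hρ
  have hρθ : 0 < ρ - θ := by rw [hρ]; linarith
  have hc0 : 0 ≤ c := Real.logb_nonneg (by norm_num) (by linarith)
  set D := max (Real.logb 2 (n₀ + 3)) (c / (ρ - θ)) with hD
  have hD0 : 0 ≤ D := le_max_of_le_right (by positivity)
  have hρ1 : 1 ≤ ρ := by rw [hρ]; linarith
  refine ⟨D, ρ, hρ1, by rw [hρ]; linarith, hD0, fun j => ?_⟩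
  induction j with
  | zero =>
    refine ⟨hn, ?_⟩
    rw [pow_zero, mul_one]
    exact le_max_left _ _
  | succ j ih =>
    obtain ⟨h0, h1⟩ := ih
    set b := bd C θ n₀ j with hb
    have hb' : bd C θ n₀ (j + 1) = C * (b + 1) ^ θ := rfl
    have hp : 0 ≤ (b + 1) ^ θ := Real.rpow_nonneg (by linarith) _
    refine ⟨by rw [hb']; exact mul_nonneg hC hp, ?_⟩
    have h3 : (1 : ℝ) ≤ (b + 3) ^ θ := Real.one_le_rpow (by linarith) (by linarith)
    have h4 : bd C θ n₀ (j + 1) + 3 ≤ (C + 3) * (b + 3) ^ θ := by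
      rw [hb']
      have h5 : (b + 1) ^ θ ≤ (b + 3) ^ θ :=
        Real.rpow_le_rpow (by linarith) (by linarith) (by linarith)
      nlinarith
    have h6 : Real.logb 2 (bd C θ n₀ (j + 1) + 3) ≤ c + θ * Real.logb 2 (b + 3) := by
      refine (Real.logb_le_logb_of_le (by norm_num) ?_ h4).trans ?_
      · have : 0 ≤ bd C θ n₀ (j + 1) := by rw [hb']; exact mul_nonneg hC hp
        linarith
      · rw [Real.logb_mul (by linarith) (by positivity), Real.logb_rpow_eq_mul_logb_of_pos
          (by linarith)]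
    refine h6.trans ?_
    have h7 : θ * Real.logb 2 (b + 3) ≤ θ * (D * ρ ^ j) :=
      mul_le_mul_of_nonneg_left h1 (by linarith)
    have h8 : (1 : ℝ) ≤ ρ ^ j := one_le_pow₀ hρ1
    have h9 : c ≤ D * (ρ - θ) := by
      have : c / (ρ - θ) ≤ D := le_max_right _ _
      rwa [div_le_iff₀ hρθ] at this
    have h10 : D * (ρ - θ) ≤ D * (ρ - θ) * ρ ^ j :=
      le_mul_of_one_le_right (mul_nonneg hD0 hρθ.le) h8
    rw [pow_succ]
    nlinarith

/-- **Groups containing copies of squares.** Let `K` be a group with a homomorphism `φ : K × K → K` and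
a proper subgroup `N` with `φ⁻¹ N ⊆ N × N` (for instance `φ` injective, `N = 1`, `K ≠ 1`). Let
`f : K → H` be a homomorphism with kernel contained in `N`, and `ℓ a` an upper bound for the length of
`f a` with `ℓ (φ (a, b)) ≤ C (max (ℓ a) (ℓ b) + 1) ^ θ`, `θ < 2`. Then the word problem of `H` is not
indexed. -/
theorem general [Finite ι] (x : ι → H) (f : K →* H) (φ : K × K →* K) (N : Subgroup K) (hN : N ≠ ⊤)
    (hf : f.ker ≤ N) (hφ : ∀ a b : K, φ (a, b) ∈ N → a ∈ N ∧ b ∈ N) (ℓ : K → ℝ)
    (hx : ∀ a, LengthLE x (f a) (ℓ a)) (C θ : ℝ) (hθ : θ < 2)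
    (hℓ : ∀ a b : K, ℓ (φ (a, b)) ≤ C * (max (ℓ a) (ℓ b) + 1) ^ θ) :
    ¬ IsIndexed (wordProblem x) := by
  classical
  intro hI
  obtain ⟨t, ht⟩ : ∃ t, t ∉ N := by
    by_contra hcon
    push Not at hcon
    exact hN (eq_top_iff.2 fun a _ => hcon a)
  have hpos : ∀ a, 0 ≤ ℓ a := fun a => by
    obtain ⟨w, hw, -⟩ := hx a
    exact (Nat.cast_nonneg _).trans hw
  -- normalise the constants
  set θ' := max θ 1 with hθ'
  set C' := max C 0 with hC'
  have hℓ' : ∀ a b : K, ℓ (φ (a, b)) ≤ C' * (max (ℓ a) (ℓ b) + 1) ^ θ' := by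
    intro a b
    have h1 : 1 ≤ max (ℓ a) (ℓ b) + 1 := by
      have : 0 ≤ max (ℓ a) (ℓ b) := le_max_of_le_left (hpos _)
      linarith
    have h2 : (max (ℓ a) (ℓ b) + 1) ^ θ ≤ (max (ℓ a) (ℓ b) + 1) ^ θ' :=
      Real.rpow_le_rpow_of_exponent_le h1 (le_max_left _ _)
    have h3 : 0 ≤ (max (ℓ a) (ℓ b) + 1) ^ θ := Real.rpow_nonneg (by linarith) _
    calc ℓ (φ (a, b)) ≤ C * (max (ℓ a) (ℓ b) + 1) ^ θ := hℓ a b
      _ ≤ C' * (max (ℓ a) (ℓ b) + 1) ^ θ := mul_le_mul_of_nonneg_right (le_max_left _ _) h3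
      _ ≤ _ := mul_le_mul_of_nonneg_left h2 (le_max_right _ _)
  set n₀ := max (ℓ 1) (ℓ t) with hn₀
  have hn0 : 0 ≤ n₀ := le_max_of_le_left (hpos _)
  obtain ⟨D, ρ, hρ1, hρ2, hD, hlog⟩ := log_bd C' θ' n₀ (le_max_right _ _)
    (max_lt hθ (by norm_num)) (le_max_right _ _) hn0
  obtain ⟨M, hM⟩ := Pool.Agent.Results.MP_429423_al.SolvableSubgroups.result H ι x hI 1
  -- the main inequality
  have key : ∀ j, ((2 : ℝ) ^ j) ≤ M * (D * ρ ^ j) := by
    intro j
    set n := ⌊bd C' θ' n₀ j⌋₊ with hn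
    set S : Subgroup H := (A φ t j).map f with hS
    have hab : derivedSeries S 1 = ⊥ := by
      have hcomm : ∀ a b : S, a * b = b * a := by
        rintro ⟨_, a, ha, rfl⟩ ⟨_, b, hb, rfl⟩
        apply Subtype.ext
        change f a * f b = f b * f a
        rw [← map_mul, ← map_mul, A_comm φ t j a ha b hb]
      rw [derivedSeries_one, commutator_eq_bot_iff_center_eq_top, eq_top_iff]
      intro a _
      rw [Subgroup.mem_center_iff]
      intro b
      exact hcomm b a
    have h1 := hM S hab n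
    have hfin : ((S : Set H) ∩ ball x n).Finite :=
      (Pool.Agent.Results.MP_429423_al.SolvableSubgroups.ball_finite x n).subset
        Set.inter_subset_right
    have h2 : 2 ^ 2 ^ j ≤ ((S : Set H) ∩ ball x n).ncard := by
      have hinj : Set.InjOn f (E φ t j : Set K) := by
        intro a ha b hb hab
        apply E_sep φ t N ht hφ j a ha b hb
        apply hf
        rw [MonoidHom.mem_ker, map_mul, map_inv, hab, inv_mul_cancel]
      have hsub : f '' (E φ t j : Set K) ⊆ (S : Set H) ∩ ball x n := by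
        rintro _ ⟨a, ha, rfl⟩
        refine ⟨⟨a, E_sub φ t j a ha, rfl⟩, ?_⟩
        obtain ⟨w, hw1, hw2⟩ := hx a
        refine ⟨w, ?_, hw2⟩
        rw [hn]
        apply Nat.le_floor
        exact hw1.trans (E_len φ t ℓ C' θ' n₀ (le_trans zero_le_one (le_max_right _ _))
          (le_max_right _ _) (le_max_left _ _) (le_max_right _ _) hpos hℓ' j a ha)
      calc 2 ^ 2 ^ j = (E φ t j : Set K).ncard := by
            rw [Set.ncard_coe_finset, E_card φ t N ht hφ j]
        _ = (f '' (E φ t j : Set K)).ncard := (Set.InjOn.ncard_image hinj).symm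
        _ ≤ _ := Set.ncard_le_ncard hsub hfin
    have h3 : 2 ^ j ≤ M * Nat.log 2 (n + 2) ^ 1 :=
      (Nat.pow_le_pow_iff_right (by norm_num)).1 (h2.trans h1)
    rw [pow_one] at h3
    have h4 : ((2 ^ j : ℕ) : ℝ) ≤ ((M * Nat.log 2 (n + 2) : ℕ) : ℝ) := by exact_mod_cast h3
    push_cast at h4
    refine h4.trans ?_
    have h5 : ((Nat.log 2 (n + 2) : ℕ) : ℝ) ≤ D * ρ ^ j := by
      refine (Real.natLog_le_logb (n + 2) 2).trans (le_trans ?_ (hlog j).2)
      refine Real.logb_le_logb_of_le (by norm_num) (by positivity) ?_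
      push_cast
      have := Nat.floor_le (hlog j).1
      rw [← hn] at this
      linarith
    exact mul_le_mul_of_nonneg_left h5 (Nat.cast_nonneg _)
  -- contradiction for large `j`
  have hr0 : 0 ≤ ρ / 2 := by positivity
  have hr1 : ρ / 2 < 1 := by linarith
  have hlim := tendsto_pow_atTop_nhds_zero_of_lt_one hr0 hr1
  have hev := hlim.eventually (gt_mem_nhds (show (0 : ℝ) < 1 / (M * D + 1) by positivity))
  obtain ⟨j, hj⟩ := hev.exists
  have h1 := key j
  have h2 : (0 : ℝ) < 2 ^ j := by positivity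
  rw [div_pow, div_lt_div_iff₀ h2 (by positivity), one_mul] at hj
  have h3 : (0 : ℝ) < ρ ^ j := by positivity
  nlinarith

end general

/-! ### Finitely generated groups -/

section fg

open Pool.Agent.Results.MP_429423_al.SolvableSubgroups (value_append value_winv length_winv letter)

variable {H : Type} [Group H] {ι κ : Type}

lemma value_cons (x : ι → H) (p : ι × Bool) (w : List (ι × Bool)) :
    value x (p :: w) = letter x p * value x w := by simp [value]

/-- The elements of the subgroup generated by the `x i` are represented by words. -/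
lemma exists_word (x : ι → H) {h : H} (hh : h ∈ Subgroup.closure (Set.range x)) :
    ∃ w : List (ι × Bool), value x w = h := by
  induction hh using Subgroup.closure_induction with
  | mem y hy =>
    obtain ⟨i, rfl⟩ := hy
    exact ⟨[(i, true)], by simp [value, letter]⟩
  | one => exact ⟨[], rfl⟩
  | mul a b _ _ ha hb =>
    obtain ⟨u, hu⟩ := ha
    obtain ⟨v, hv⟩ := hb
    exact ⟨u ++ v, by rw [value_append, hu, hv]⟩
  | inv a _ ha =>
    obtain ⟨u, hu⟩ := ha
    exact ⟨winv u, by rw [value_winv, hu]⟩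

/-- Substitution of words for letters. -/
lemma subst_word (x : ι → H) (z : κ → H) (L : ℕ)
    (hz : ∀ i, ∃ w : List (ι × Bool), w.length ≤ L ∧ value x w = z i) (w : List (κ × Bool)) :
    ∃ v : List (ι × Bool), v.length ≤ L * w.length ∧ value x v = value z w := by
  induction w with
  | nil => exact ⟨[], by simp, rfl⟩
  | cons p w ih =>
    obtain ⟨v, hv1, hv2⟩ := ih
    obtain ⟨u, hu1, hu2⟩ := hz p.1
    obtain ⟨u', hu1', hu2'⟩ : ∃ u' : List (ι × Bool), u'.length ≤ L ∧ value x u' = letter z p := by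
      rcases p with ⟨i, b⟩
      cases b
      · exact ⟨winv u, by rw [length_winv]; exact hu1, by rw [value_winv, hu2]; simp [letter]⟩
      · exact ⟨u, hu1, by rw [hu2]; simp [letter]⟩
    refine ⟨u' ++ v, ?_, ?_⟩
    · rw [List.length_append, List.length_cons, Nat.mul_succ]
      omega
    · rw [value_append, hu2', hv2, value_cons]

/-- The images under a homomorphism. -/
lemma map_value {Γ : Type} [Group Γ] (g : Γ →* H) (y : κ → Γ) (w : List (κ × Bool)) :
    g (value y w) = value (fun i => g (y i)) w := by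
  induction w with
  | nil => simp [value]
  | cons p w ih =>
    rw [value_cons, value_cons, map_mul, ih]
    congr 1
    rcases p with ⟨i, b⟩
    cases b <;> simp [letter]

/-- A common bound for the lengths of finitely many elements. -/
lemma exists_bound [Finite κ] (x : ι → H) (z : κ → H)
    (hz : ∀ i, z i ∈ Subgroup.closure (Set.range x)) :
    ∃ L : ℕ, ∀ i, ∃ w : List (ι × Bool), w.length ≤ L ∧ value x w = z i := by
  have _ := Fintype.ofFinite κ
  choose w hw using fun i => exists_word x (hz i)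
  exact ⟨Finset.univ.sup fun i => (w i).length, fun i =>
    ⟨w i, Finset.le_sup (f := fun i => (w i).length) (Finset.mem_univ i), hw i⟩⟩

/-- The general form for subgroups of finitely generated groups: `s₀` and `s₁` map `K` to commuting
subgroups of `K`. -/
theorem ambient [Finite ι] (x : ι → H) {Γ : Type} [Group Γ] (hΓ : Group.FG Γ) (F : Γ →* H)
    (hFx : F.range ≤ Subgroup.closure (Set.range x)) (K : Subgroup Γ) (s₀ s₁ : Γ →* Γ)
    (h₀ : ∀ a ∈ K, s₀ a ∈ K) (h₁ : ∀ a ∈ K, s₁ a ∈ K)
    (hcomm : ∀ a ∈ K, ∀ b ∈ K, Commute (s₀ a) (s₁ b)) (N : Subgroup Γ) (hKN : ¬ K ≤ N)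
    (hker : ∀ a ∈ K, F a = 1 → a ∈ N)
    (hN : ∀ a ∈ K, ∀ b ∈ K, s₀ a * s₁ b ∈ N → a ∈ N ∧ b ∈ N) :
    ¬ IsIndexed (wordProblem x) := by
  classical
  obtain ⟨S, hS⟩ := Group.fg_iff.1 hΓ
  obtain ⟨hS, hSfin⟩ := hS
  have _ : Finite S := hSfin.to_subtype
  let y : S → Γ := fun i => i.1
  have hy : Subgroup.closure (Set.range y) = ⊤ := by
    have : Set.range y = S := Subtype.range_coe
    rw [this, hS]
  have hw : ∀ a : Γ, ∃ n : ℕ, ∃ w : List (S × Bool), w.length = n ∧ value y w = a := fun a => by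
    obtain ⟨w, hw⟩ := exists_word y (h := a) (by rw [hy]; trivial)
    exact ⟨w.length, w, rfl, hw⟩
  let len : Γ → ℕ := fun a => Nat.find (hw a)
  have hlen : ∀ a, ∃ w : List (S × Bool), w.length = len a ∧ value y w = a := fun a =>
    Nat.find_spec (hw a)
  have hlen' : ∀ w : List (S × Bool), len (value y w) ≤ w.length := fun w =>
    Nat.find_min' (hw _) ⟨w, rfl, rfl⟩
  obtain ⟨L, hL⟩ := exists_bound x (fun i => F (y i)) (fun i => hFx ⟨_, rfl⟩)
  obtain ⟨L₀, hL₀⟩ := exists_bound y (fun i => s₀ (y i)) (fun i => by rw [hy]; trivial)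
  obtain ⟨L₁, hL₁⟩ := exists_bound y (fun i => s₁ (y i)) (fun i => by rw [hy]; trivial)
  have hprod : ∀ a b : Γ, len (s₀ a * s₁ b) ≤ L₀ * len a + L₁ * len b := by
    intro a b
    obtain ⟨u, hu1, hu2⟩ := hlen a
    obtain ⟨v, hv1, hv2⟩ := hlen b
    obtain ⟨u', hu1', hu2'⟩ := subst_word y (fun i => s₀ (y i)) L₀ hL₀ u
    obtain ⟨v', hv1', hv2'⟩ := subst_word y (fun i => s₁ (y i)) L₁ hL₁ v
    have e : value y (u' ++ v') = s₀ a * s₁ b := by
      rw [value_append, hu2', hv2', ← map_value, ← map_value, hu2, hv2]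
    rw [← e]
    refine (hlen' _).trans ?_
    rw [List.length_append, ← hu1, ← hv1]
    omega
  let φ : K × K →* K :=
    { toFun := fun p => ⟨s₀ p.1 * s₁ p.2, K.mul_mem (h₀ _ p.1.2) (h₁ _ p.2.2)⟩
      map_one' := by
        apply Subtype.ext
        simp
      map_mul' := by
        intro p q
        apply Subtype.ext
        simp only [Prod.fst_mul, Prod.snd_mul, Subgroup.coe_mul, map_mul]
        rw [mul_assoc, mul_assoc]
        congr 1
        rw [← mul_assoc, ← mul_assoc]
        congr 1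
        exact hcomm _ q.1.2 _ p.2.2 }
  refine general x (F.comp K.subtype) φ (N.subgroupOf K) ?_ ?_ ?_
    (fun a => (L : ℝ) * (len (a : Γ) : ℝ)) ?_ (((L₀ : ℝ) + L₁) * (L + 1)) 1 (by norm_num) ?_
  · intro h
    rw [Subgroup.subgroupOf_eq_top] at h
    exact hKN h
  · intro a ha
    rw [Subgroup.mem_subgroupOf]
    exact hker _ a.2 ha
  · intro a b hab
    rw [Subgroup.mem_subgroupOf] at hab
    exact hN _ a.2 _ b.2 hab
  · intro a
    obtain ⟨u, hu1, hu2⟩ := hlen (a : Γ)
    obtain ⟨v, hv1, hv2⟩ := subst_word x (fun i => F (y i)) L hL u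
    refine ⟨v, ?_, ?_⟩
    · rw [← hu1]
      exact_mod_cast hv1
    · rw [hv2, ← map_value, hu2]
      rfl
  · intro a b
    rw [Real.rpow_one]
    have h1 : ((len ((φ (a, b) : K) : Γ) : ℕ) : ℝ) ≤ L₀ * len (a : Γ) + L₁ * len (b : Γ) := by
      exact_mod_cast hprod a b
    have hm1 := le_max_left ((L : ℝ) * (len (a : Γ) : ℝ)) ((L : ℝ) * (len (b : Γ) : ℝ))
    have hm2 := le_max_right ((L : ℝ) * (len (a : Γ) : ℝ)) ((L : ℝ) * (len (b : Γ) : ℝ))
    set m := max ((L : ℝ) * (len (a : Γ) : ℝ)) ((L : ℝ) * (len (b : Γ) : ℝ)) with hm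
    have hL0 : (0 : ℝ) ≤ L := Nat.cast_nonneg _
    have hL00 : (0 : ℝ) ≤ L₀ := Nat.cast_nonneg _
    have hL10 : (0 : ℝ) ≤ L₁ := Nat.cast_nonneg _
    have hm0 : 0 ≤ m := le_trans (mul_nonneg hL0 (Nat.cast_nonneg _)) hm1
    calc (L : ℝ) * (len ((φ (a, b) : K) : Γ) : ℝ)
        ≤ L * (L₀ * len (a : Γ) + L₁ * len (b : Γ)) := mul_le_mul_of_nonneg_left h1 hL0
      _ = L₀ * (L * len (a : Γ)) + L₁ * (L * len (b : Γ)) := by ring
      _ ≤ L₀ * m + L₁ * m := add_le_add (mul_le_mul_of_nonneg_left hm1 hL00)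
          (mul_le_mul_of_nonneg_left hm2 hL10)
      _ = (L₀ + L₁) * 1 * m := by ring
      _ ≤ (L₀ + L₁) * (L + 1) * (m + 1) := by
        have h2 : (0 : ℝ) ≤ L₀ + L₁ := by positivity
        have h3 : ((L₀ : ℝ) + L₁) * 1 ≤ (L₀ + L₁) * (L + 1) :=
          mul_le_mul_of_nonneg_left (by linarith) h2
        exact mul_le_mul h3 (by linarith) hm0 (by positivity)

/-- **Finitely generated groups containing their square.** -/
theorem fg_case [Finite ι] (x : ι → H) {K : Type} [Group K] [Nontrivial K] (hK : Group.FG K)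
    (f : K →* H) (hf : Function.Injective f) (hfx : f.range ≤ Subgroup.closure (Set.range x))
    (φ : K × K →* K) (hφ : Function.Injective φ) : ¬ IsIndexed (wordProblem x) := by
  refine ambient x hK f hfx ⊤ (φ.comp (MonoidHom.inl K K)) (φ.comp (MonoidHom.inr K K))
    (fun _ _ => trivial) (fun _ _ => trivial) ?_ ⊥ ?_ ?_ ?_
  · intro a _ b _
    exact (MonoidHom.commute_inl_inr a b).map φ
  · rw [top_le_iff]
    exact bot_ne_top
  · intro a _ ha
    rw [Subgroup.mem_bot]
    exact hf (by rw [ha, map_one])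
  · intro a _ b _ hab
    rw [Subgroup.mem_bot] at hab
    have e : φ.comp (MonoidHom.inl K K) a * φ.comp (MonoidHom.inr K K) b = φ (a, b) := by
      rw [MonoidHom.comp_apply, MonoidHom.comp_apply, ← map_mul]
      simp
    rw [e] at hab
    have h := hφ (hab.trans (map_one φ).symm)
    rw [Prod.mk_eq_one] at h
    exact ⟨Subgroup.mem_bot.2 h.1, Subgroup.mem_bot.2 h.2⟩

end fg

/-! ### Groups containing the Grigorchuk group -/

section grigorchuk

open Pool.Agent.Results.MP_71689c_al.NotIndexed (KN KN_le s s_mem comm_RL rho rho_s t t_mem rho_t_ne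
  s_true s_false)

lemma grigorchuk_fg : Group.FG Grigorchuk := by
  have h : Subgroup.closure (Set.range (PresentedGroup.of : Gen → Grigorchuk)) = ⊤ :=
    PresentedGroup.closure_range_of _
  refine Group.fg_iff.2 ⟨Set.range PresentedGroup.of, h, ?_⟩
  have : Finite Gen := by
    refine Finite.of_injective (fun g : Gen => (match g with
      | Gen.a => 0
      | Gen.b => 1
      | Gen.c => 2
      | Gen.d => 3 : Fin 4)) ?_
    intro g h hgh
    cases g <;> cases h <;> simp_all
  exact Set.finite_range _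

/-- **Groups containing the Grigorchuk group.** -/
theorem overgroup {H : Type} [Group H] {ι : Type} [Finite ι] (x : ι → H) (F : Grigorchuk →* H)
    (hF : Function.Injective F) (hFx : F.range ≤ Subgroup.closure (Set.range x)) :
    ¬ IsIndexed (wordProblem x) := by
  refine ambient x grigorchuk_fg F hFx KN (s false) (s true) (fun _ => s_mem false)
    (fun _ => s_mem true) ?_ rho.ker ?_ ?_ ?_
  · intro a ha b hb
    rw [s_false, s_true]
    exact (comm_RL (KN_le hb) (KN_le ha)).symm
  · intro h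
    have h1 : rho t = 1 := h t_mem
    apply rho_t_ne
    rw [h1]
    rfl
  · intro a _ ha
    have h1 : a = 1 := hF (by rw [ha, map_one])
    rw [h1]
    exact one_mem _
  · intro a ha b hb hab
    rw [MonoidHom.mem_ker, map_mul] at hab
    refine ⟨?_, ?_⟩
    · rw [MonoidHom.mem_ker]
      apply Equiv.ext
      intro u
      have h1 := congrArg (fun g : Equiv.Perm (List Bool) => g (false :: u)) hab
      simp only [Equiv.Perm.mul_apply] at h1
      have h2 := (rho_s hb true u).2
      rw [Bool.not_true] at h2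
      rw [h2, (rho_s ha false u).1] at h1
      simpa using h1
    · rw [MonoidHom.mem_ker]
      apply Equiv.ext
      intro u
      have h1 := congrArg (fun g : Equiv.Perm (List Bool) => g (true :: u)) hab
      simp only [Equiv.Perm.mul_apply] at h1
      have h2 := (rho_s ha false (rho b u)).2
      rw [Bool.not_false] at h2
      rw [(rho_s hb true u).1, h2] at h1
      simpa using h1

end grigorchuk

/-- **(1)** Let `H` be a group generated by finitely many elements `x i` (or any group with such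
elements). Let `K` be a group, `φ : K × K → K` a homomorphism and `N` a proper subgroup of `K` with
`φ⁻¹ N ⊆ N × N`; let `f : K → H` be a homomorphism with kernel in `N`, let `ℓ a` be an upper bound for
the length of `f a`, and let `ℓ (φ (a, b)) ≤ C (max (ℓ a) (ℓ b) + 1) ^ θ`, `θ < 2`. Then the word
problem of `H` is not indexed. **(2)** The same if `H` (more precisely the subgroup generated by the
`x i`) contains a nontrivial finitely generated group `K` which contains a copy of `K × K`. **(3)** In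
particular if `H` contains the Grigorchuk group; **(4)** the word problem of the Grigorchuk group over
the alphabet `{a, b, c, d}` and inverses is not an indexed language. -/
theorem result :
    (∀ (H : Type) [Group H] (ι : Type) [Finite ι] (x : ι → H) (K : Type) [Group K] (f : K →* H)
      (φ : K × K →* K) (N : Subgroup K), N ≠ ⊤ → f.ker ≤ N →
      (∀ a b : K, φ (a, b) ∈ N → a ∈ N ∧ b ∈ N) →
      ∀ (ℓ : K → ℝ), (∀ a, LengthLE x (f a) (ℓ a)) → ∀ (C θ : ℝ), θ < 2 →
      (∀ a b : K, ℓ (φ (a, b)) ≤ C * (max (ℓ a) (ℓ b) + 1) ^ θ) → ¬ IsIndexed (wordProblem x)) ∧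
    (∀ (H : Type) [Group H] (ι : Type) [Finite ι] (x : ι → H) (K : Subgroup H), K.FG → K ≠ ⊥ →
      K ≤ Subgroup.closure (Set.range x) → ∀ φ : K × K →* K, Function.Injective φ →
      ¬ IsIndexed (wordProblem x)) ∧
    (∀ (H : Type) [Group H] (ι : Type) [Finite ι] (x : ι → H) (F : Grigorchuk →* H),
      Function.Injective F → F.range ≤ Subgroup.closure (Set.range x) →
      ¬ IsIndexed (wordProblem x)) ∧
    ¬ IsIndexed Pool.Agent.Results.MP_71689c_al.NotIndexed.wordProblem := by
  refine ⟨?_, ?_, ?_, ?_⟩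
  · intro H _ ι _ x K _ f φ N h1 h2 h3 ℓ h4 C θ h5 h6
    exact general x f φ N h1 h2 h3 ℓ h4 C θ h5 h6
  · intro H _ ι _ x K hfg hne hx φ hφ
    have : Nontrivial K := (Subgroup.nontrivial_iff_ne_bot K).2 hne
    exact fg_case x (Group.fg_iff_subgroup_fg K |>.2 hfg) K.subtype K.subtype_injective
      (by rw [Subgroup.range_subtype]; exact hx) φ hφ
  · intro H _ ι _ x F hF hFx
    exact overgroup x F hF hFx
  · exact Pool.Agent.Results.MP_71689c_al.NotIndexed.result

end Pool.Agent.Results.MP_71689c_al.SquareEmbeddings
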